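import Pool.Agent.H.MP_541d1f_an.B

open Set Metric Real
open scoped RealInnerProductSpace
open Pool.Agent.H.MP_770c06_an

namespace Pool.Agent.H.MP_541d1f_an

noncomputable def a (i : Fin 6) : E := ![!₂[1, 0, 0], !₂[-1, 0, 0], !₂[0, 1, 0], !₂[0, -1, 0],
  !₂[0, 0, 1], !₂[0, 0, -1]] i

def w (x : E) (i : Fin 6) : ℝ := ![x 0, -x 0, x 1, -x 1, x 2, -x 2] i

noncomputable def u (x : E) (i : Fin 6) : ℝ := ‖x - a i‖⁻¹

noncomputable def ρ : ℝ := 1 / 10 ^ 7
noncomputable def s : ℝ := 1 / 10 ^ 35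
noncomputable def k : ℝ := 1 / 10 ^ 70
noncomputable def q : ℝ := s * (1 + 14 * s - ρ)
noncomputable def q0 : ℝ := ρ * (1 + s ^ 2 - s * (1 - ρ) * (6 - 2 / 10 ^ 23))
noncomputable def q1 : ℝ := ρ * (1 - s ^ 2 - s * (6 - 6 * ρ - 4 * ρ ^ 3))
noncomputable def L : ℝ := π / k + (6 * q + q0) + 3 * k

variable {x y p : E}

lemma na (i : Fin 6) : ‖a i‖ = 1 := by
  rw [← sq_eq_sq₀ (norm_nonneg _) zero_le_one, nsq]
  fin_cases i <;> simp [a]

lemma nx (x : E) (i : Fin 6) : ‖x - a i‖ ^ 2 = 1 + (‖x‖ ^ 2 - 2 * w x i) := by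
  rw [nsq, nsq]
  fin_cases i <;> simp [a, w] <;> ring

lemma wle (x : E) (i : Fin 6) : |w x i| ≤ ‖x‖ := by
  have := fun j => PiLp.norm_apply_le x j
  fin_cases i <;> simpa [w] using this _

lemma nab {i j : Fin 6} (h : i ≠ j) : 1 ≤ ‖a i - a j‖ := by
  rw [← one_le_sq_iff₀ (norm_nonneg _), nx, na]
  fin_cases i <;> fin_cases j <;> simp [a, w] at h ⊢ <;> norm_num

lemma t3 {u t : ℝ} (hu : 0 < u) (h : u ^ 2 * (1 + t) = 1) (ht : |t| ≤ 1 / 10) :
    1 - t / 2 + 3 / 8 * t ^ 2 - 5 / 16 * t ^ 3 ≤ u ∧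
      u ≤ 1 - t / 2 + 3 / 8 * t ^ 2 - 5 / 16 * t ^ 3 + t ^ 4 / 2 := by
  obtain ⟨h1, h2⟩ := abs_le.1 ht
  have a2 : t ^ 2 ≤ 1 / 100 := by nlinarith
  have a3 : -(1 / 1000) ≤ t ^ 3 ∧ t ^ 3 ≤ 1 / 1000 := by constructor <;> nlinarith [sq_nonneg t]
  have a4 : 0 ≤ t ^ 4 := by positivity
  have a5 : t ^ 4 ≤ 1 / 100 := by nlinarith [sq_nonneg t]
  have a6 : -(1 / 100) ≤ t ^ 5 := by nlinarith
  refine ⟨le_of_sq_le_sq (le_of_mul_le_mul_right ?_ (by linarith : 0 < 1 + t)) hu.le,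
    le_of_sq_le_sq (le_of_mul_le_mul_right ?_ (by linarith : 0 < 1 + t)) (by nlinarith [sq_nonneg t])⟩
  · nlinarith [mul_nonneg a4 (show 0 ≤ 35 / 64 - 7 / 32 * t + 35 / 256 * t ^ 2 - 25 / 256 * t ^ 3 by
      nlinarith [sq_nonneg t])]
  · nlinarith [mul_nonneg a4 (show 0 ≤ 29 / 64 + 23 / 32 * t - 67 / 256 * t ^ 2 + 41 / 256 * t ^ 3
      - 1 / 16 * t ^ 4 + 1 / 4 * t ^ 5 by linarith)]

lemma ex (hx : ‖x‖ ≤ 7 * ρ) (i : Fin 6) {t : ℝ} (ht : t = ‖x‖ ^ 2 - 2 * w x i) :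
    (1 - t / 2 + 3 / 8 * t ^ 2 - 5 / 16 * t ^ 3 ≤ u x i ∧
      u x i ≤ 1 - t / 2 + 3 / 8 * t ^ 2 - 5 / 16 * t ^ 3 + 3 / 10 ^ 24) ∧
      |u x i - 1 - w x i| ≤ 111 / 10 ^ 14 := by
  unfold ρ at hx
  obtain ⟨w1, w2⟩ := abs_le.1 (wle x i)
  have n0 := norm_nonneg x
  have n1 : ‖x‖ ^ 2 ≤ 49 / 10 ^ 14 := by nlinarith
  have b : |t| ≤ 15 / 10 ^ 7 := abs_le.2 ⟨by nlinarith, by nlinarith⟩
  have h0 : 0 < ‖x - a i‖ := by linarith [norm_sub_norm_le (a i) x, norm_sub_rev x (a i), na i]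
  obtain ⟨h1, h2⟩ := t3 (u := u x i) (inv_pos.2 h0) (by rw [ht, ← nx, u]; field_simp) (b.trans (by norm_num))
  have b2 := pow_le_pow_left₀ (abs_nonneg _) b 2
  have b3 := abs_le.1 ((abs_pow t 3).trans_le (pow_le_pow_left₀ (abs_nonneg _) b 3))
  have b4 := (le_abs_self _).trans ((abs_pow t 4).trans_le (pow_le_pow_left₀ (abs_nonneg _) b 4))
  rw [sq_abs] at b2
  norm_num at b2 b3 b4
  exact ⟨⟨h1, by linarith⟩, abs_le.2 ⟨by nlinarith [sq_nonneg t], by nlinarith [sq_nonneg ‖x‖]⟩⟩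

lemma sumu (hx : ‖x‖ ≤ 7 * ρ) : 6 - 2 / 10 ^ 23 ≤ ∑ i, u x i ∧ ∑ i, u x i ≤ 6 + 2 / 10 ^ 23 := by
  have h := fun i => (ex hx i rfl).1
  have e : ∑ i, (1 - (‖x‖ ^ 2 - 2 * w x i) / 2 + 3 / 8 * (‖x‖ ^ 2 - 2 * w x i) ^ 2 -
      5 / 16 * (‖x‖ ^ 2 - 2 * w x i) ^ 3) = 6 - 21 / 4 * (‖x‖ ^ 2) ^ 2 - 15 / 8 * (‖x‖ ^ 2) ^ 3 := by
    rw [nsq, Fin.sum_univ_six]
    simp [w]
    ring
  have h1 := Finset.sum_le_sum fun i (_ : i ∈ Finset.univ) => (h i).1
  have h2 := Finset.sum_le_sum fun i (_ : i ∈ Finset.univ) => (h i).2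
  rw [Finset.sum_add_distrib, e] at h2
  rw [e] at h1
  unfold ρ at hx
  have b4 := pow_le_pow_left₀ (norm_nonneg _) hx 4
  have b6 := pow_le_pow_left₀ (norm_nonneg _) hx 6
  have : 0 ≤ ‖x‖ ^ 4 := by positivity
  have : 0 ≤ ‖x‖ ^ 6 := by positivity
  norm_num at b4 b6 h2
  constructor <;> nlinarith

lemma mix (hx : ‖x - y‖ ≤ 2 * ρ) (y1 : 3 * ρ ≤ ‖y‖) (y2 : ‖y‖ ≤ 5 * ρ) :
    ∑ i, (1 - ρ * u y i) * u x i ≤ 6 - 6 * ρ - 4 * ρ ^ 3 := by
  have x1 : ‖x‖ ≤ 7 * ρ := by linarith [norm_le_norm_add_norm_sub' x y]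
  have y3 : ‖y‖ ≤ 7 * ρ := by unfold ρ at *; linarith
  have h : ∀ i, w x i * w y i - 16 / 10 ^ 19 ≤ (u x i - 1) * (u y i - 1) := fun i => by
    have b1 := (ex x1 i rfl).2
    have b2 := (ex y3 i rfl).2
    have b3 := (wle x i).trans x1
    have b4 := (wle y i).trans y3
    unfold ρ at *
    have c1 := abs_le.1 ((abs_mul _ _).trans_le (mul_le_mul b1 b2 (abs_nonneg _) (by norm_num)))
    have c2 := abs_le.1 ((abs_mul _ _).trans_le (mul_le_mul b1 b4 (abs_nonneg _) (by norm_num)))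
    have c3 := abs_le.1 ((abs_mul _ _).trans_le (mul_le_mul b3 b2 (abs_nonneg _) (by norm_num)))
    nlinarith
  have h1 := Finset.sum_le_sum fun i (_ : i ∈ Finset.univ) => h i
  have e : ∑ i, w x i * w y i = 2 * (‖y‖ ^ 2 + ⟪x - y, y⟫) := by
    rw [nsq, Fin.sum_univ_six]
    simp [w, PiLp.inner_apply, Fin.sum_univ_three]
    ring
  have c := (abs_le.1 ((abs_real_inner_le_norm (x - y) y).trans
    (mul_le_mul_of_nonneg_right hx (norm_nonneg _)))).1
  have b1 := sumu x1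
  have b2 := sumu y3
  rw [Finset.sum_sub_distrib, e] at h1
  simp only [Fin.sum_univ_six, Finset.sum_const, Finset.card_univ, Fintype.card_fin] at *
  unfold ρ at *
  norm_num at *
  nlinarith

lemma k0 : 0 < k := by unfold k; norm_num

lemma Cle (p x : E) : C k p x ≤ ‖x - p‖⁻¹ := mul_le_of_le_one_left (by positivity) (cos_le_one _)

lemma Cge (h : ‖x - p‖ ≤ 3) : ‖x - p‖⁻¹ - 2 * k ^ 2 ≤ C k p x := by
  rcases (norm_nonneg (x - p)).eq_or_lt with i | i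
  · simp [C, ← i, sq_nonneg]
  have := mul_le_mul_of_nonneg_right (one_sub_sq_div_two_le_cos (x := k * ‖x - p‖)) (inv_pos.2 i).le
  rw [show (1 - (k * ‖x - p‖) ^ 2 / 2) * ‖x - p‖⁻¹ = ‖x - p‖⁻¹ - k ^ 2 * ‖x - p‖ / 2 by field_simp] at this
  unfold C
  nlinarith [sq_nonneg k]

lemma Sle (p x : E) : S k p x ≤ 1 := by
  rw [S, mul_left_comm, ← mul_inv, ← div_eq_mul_inv]
  exact div_le_one_of_le₀ (sin_le (mul_nonneg k0.le (norm_nonneg _))) (mul_nonneg k0.le (norm_nonneg _))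

lemma Sge (h : 0 < ‖x - p‖) : 1 - (k * ‖x - p‖) ^ 2 / 6 ≤ S k p x := by
  have := mul_pos k0 h
  rw [S, mul_left_comm, ← mul_inv, ← div_eq_mul_inv, le_div_iff₀ this]
  linarith [sin_ge_sub_cube this.le]

lemma far {Q : ℝ} (Q0 : 0 ≤ Q) (Q1 : Q ≤ 1 / 10) (hx : 2 < ‖x‖) (ht : ‖x - a 0‖ < π / k + Q - k) :
    ∃ β, (∀ p, ‖p‖ ≤ 1 → C k p x ≤ β) ∧ Q * β < S k (a 0) x := by
  have h : ∀ p, ‖p‖ ≤ 1 → 1 ≤ ‖x - p‖ ∧ ‖x - a 0‖ - 2 ≤ ‖x - p‖ ∧ ‖x - p‖ ≤ ‖x - a 0‖ + 2 := fun p hp => by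
    have := norm_sub_norm_le x p
    have := norm_sub_le x p
    have := norm_sub_norm_le x (a 0)
    have := norm_sub_le x (a 0)
    refine ⟨?_, ?_, ?_⟩ <;> linarith [na 0]
  have h0 := (h _ (na 0).le).1
  have := pi_gt_three
  have := pi_lt_four
  have K := k0
  generalize e : ‖x - a 0‖ = t at *
  by_cases c1 : k * t ≤ 2
  · refine ⟨1, fun p hp => (Cle p x).trans (inv_le_one_of_one_le₀ (h p hp).1), ?_⟩
    have := Sge (x := x) (p := a 0) (by linarith)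
    rw [e] at this
    nlinarith [mul_pos K (by linarith : 0 < t)]
  by_cases c2 : k * t < π
  · refine ⟨0, fun p hp => mul_nonpos_of_nonpos_of_nonneg (cos_nonpos_of_pi_div_two_le_of_le ?_ ?_)
      (by positivity), ?_⟩
    · unfold k at *; linarith [(h p hp).2.1, pi_lt_d2]
    · unfold k at *; linarith [(h p hp).2.2]
    · have := sin_pos_of_pos_of_lt_pi (by linarith) c2
      rw [mul_zero, S, e]
      positivity
  refine ⟨-((1 - 5 * k ^ 2) * (t + 2)⁻¹), fun p hp => ?_, ?_⟩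
  · obtain ⟨h1, h2, h3⟩ := h p hp
    rw [C, le_neg, ← neg_mul, ← cos_sub_pi]
    have : (k * ‖x - p‖ - π) ^ 2 ≤ (3 * k) ^ 2 := sq_le_sq' (by unfold k at *; linarith) (by unfold k at *; linarith)
    have : 1 - 5 * k ^ 2 ≤ cos (k * ‖x - p‖ - π) := by
      nlinarith [one_sub_sq_div_two_le_cos (x := k * ‖x - p‖ - π)]
    have k2 : 0 ≤ 1 - 5 * k ^ 2 := by unfold k; norm_num
    gcongr
    linarith
  · have : -(k * t - π) ≤ sin (k * t) := by linarith [sin_le (sub_nonneg.2 (not_lt.1 c2)), sin_sub_pi (k * t)]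
    have h2 : -(Q - k) < k⁻¹ * sin (k * t) := by unfold k at *; norm_num at *; linarith
    rw [S, e, ← mul_assoc]
    refine lt_of_le_of_lt ?_ (mul_lt_mul_of_pos_right h2 (by positivity))
    rw [mul_neg, neg_mul, neg_le_neg_iff, ← mul_assoc, ← div_eq_mul_inv, ← div_eq_mul_inv,
      div_le_div_iff₀ (by linarith) (by linarith)]
    unfold k at *
    nlinarith

lemma uy (y2 : ‖y‖ ≤ 5 * ρ) (i : Fin 6) : 0 ≤ u y i ∧ u y i ≤ 11 / 10 := by
  have := abs_le.1 (ex (x := y) (by unfold ρ at *; linarith) i rfl).2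
  have := abs_le.1 ((wle y i).trans y2)
  unfold ρ at *
  constructor <;> linarith

lemma posW (y1 : 3 * ρ ≤ ‖y‖) (y2 : ‖y‖ ≤ 5 * ρ) (hL : ‖x - a 0‖ < L) (ha : ∀ i, s < ‖x - a i‖)
    (hy : ρ < ‖x - y‖) : ∑ i, s * (1 - 14 * s - ρ * u y i) * C k (a i) x + q1 * C k y x < S k (a 0) x := by
  have b : ∀ i, 0 ≤ s * (1 - 14 * s - ρ * u y i) ∧ s * (1 - 14 * s - ρ * u y i) ≤ s := fun i => by
    have := uy y2 i
    unfold s ρ
    constructor <;> linarith
  have b1 : 0 ≤ q1 ∧ q1 ≤ ρ := by unfold q1 s ρ; norm_num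
  have r0 : 0 < ρ := by unfold ρ; norm_num
  have s0 : 0 < s := by unfold s; norm_num
  by_cases c : 2 < ‖x‖
  · have := sumu (x := y) (by unfold ρ at *; linarith)
    obtain ⟨β, h1, h2⟩ := far (Q := ∑ i, s * (1 - 14 * s - ρ * u y i) + q1) (add_nonneg
      (Finset.sum_nonneg fun i _ => (b i).1) b1.1) (by
        rw [Fin.sum_univ_six] at *; unfold q1 s ρ; linarith) c (by
        rw [Fin.sum_univ_six] at *; unfold L q q0 at hL; unfold q1; unfold s ρ k at *; linarith)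
    refine lt_of_le_of_lt ?_ h2
    rw [add_mul, Finset.sum_mul]
    exact add_le_add (Finset.sum_le_sum fun i _ => mul_le_mul_of_nonneg_left (h1 _ (na i).le) (b i).1)
      (mul_le_mul_of_nonneg_left (h1 _ (by unfold ρ at *; linarith)) b1.1)
  have h1 : 1 - 2 * k ^ 2 ≤ S k (a 0) x := by
    have := Sge (s0.trans (ha 0))
    have : k * ‖x - a 0‖ ≤ k * 3 := by gcongr; exacts [k0.le, by linarith [norm_sub_le x (a 0), na 0]]
    nlinarith [mul_nonneg k0.le (norm_nonneg (x - a 0))]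
  refine lt_of_le_of_lt (add_le_add (Finset.sum_le_sum fun i _ => mul_le_mul_of_nonneg_left (Cle _ x) (b i).1)
    (mul_le_mul_of_nonneg_left (Cle _ x) b1.1)) (lt_of_lt_of_le ?_ h1)
  have o : ∀ j, 1 / 2 ≤ ‖x - a j‖ → s * (1 - 14 * s - ρ * u y j) * ‖x - a j‖⁻¹ ≤ 2 * s := fun j hj => by
    have : ‖x - a j‖⁻¹ ≤ 2 := inv_le_of_inv_le₀ two_pos (by linarith)
    nlinarith [b j, inv_nonneg.2 (norm_nonneg (x - a j))]
  by_cases c2 : ∃ i, ‖x - a i‖ ≤ 1 / 2
  · obtain ⟨i, hi⟩ := c2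
    rw [← Finset.add_sum_erase _ _ (Finset.mem_univ i)]
    have h2 := Finset.sum_le_card_nsmul (Finset.univ.erase i) _ _ fun j hj => o j (by
      linarith [nab (Finset.ne_of_mem_erase hj), norm_sub_le_norm_sub_add_norm_sub (a j) x (a i),
        norm_sub_rev x (a j)])
    have h3 : 9 / 10 ≤ ‖y - a i‖ := by
      unfold ρ at *; linarith [norm_sub_norm_le (a i) y, norm_sub_rev y (a i), na i]
    have h4 : ‖x - y‖⁻¹ ≤ u y i + 4 * ‖x - a i‖ := by
      have := norm_sub_le_norm_sub_add_norm_sub y x (a i)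
      rw [norm_sub_rev y x] at this
      have t0 := norm_nonneg (x - a i)
      rw [u, inv_le_iff_one_le_mul₀ (r0.trans hy)]
      generalize ‖y - a i‖ = D, ‖x - a i‖ = t, ‖x - y‖ = r at *
      refine le_trans ?_ (mul_le_mul_of_nonneg_left (by linarith : D - t ≤ r) (by positivity))
      rw [show (D⁻¹ + 4 * t) * (D - t) = 1 + t * (4 * D * (D - t) - 1) / D by field_simp; ring]
      exact le_add_of_nonneg_right (div_nonneg (mul_nonneg t0 (by nlinarith)) (by linarith))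
    have h5 := (mul_le_mul b1.2 h4 (by positivity) r0.le)
    have := uy y2 i
    simp only [Finset.card_erase_of_mem (Finset.mem_univ i), Finset.card_univ, Fintype.card_fin] at h2
    rcases le_total ‖x - a i‖ (2 * s) with h | h
    · have := mul_le_mul_of_nonneg_left (inv_anti₀ s0 (ha i).le) (b i).1
      unfold s ρ k at *
      norm_num at *
      linarith
    · have := mul_le_mul (b i).2 (inv_anti₀ (by positivity) h) (by positivity) s0.le
      unfold s ρ k at *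
      norm_num at *
      linarith
  push Not at c2
  rcases le_total ‖x - y‖ (2 * ρ) with h | h
  · have h2 := mul_le_mul_of_nonneg_left (mix h y1 y2) s0.le
    have h3 := mul_le_mul_of_nonneg_left (inv_anti₀ r0 hy.le) b1.1
    have h4 : ∑ i, s * (1 - 14 * s - ρ * u y i) * ‖x - a i‖⁻¹ ≤ s * ∑ i, (1 - ρ * u y i) * u x i := by
      rw [Finset.mul_sum]
      refine Finset.sum_le_sum fun i _ => ?_
      rw [mul_assoc]
      exact mul_le_mul_of_nonneg_left (mul_le_mul_of_nonneg_right (by linarith) (by positivity)) s0.le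
    unfold q1 at *
    unfold s ρ k at *
    norm_num at *
    linarith
  · have h2 := Finset.sum_le_card_nsmul Finset.univ _ _ fun j _ => o j (c2 j).le
    have h3 := mul_le_mul b1.2 (inv_anti₀ (by positivity) h) (by positivity) r0.le
    unfold s ρ k at *
    norm_num at *
    linarith

lemma negW (h : ‖x - a 0‖ = L ∨ (∃ i, ‖x - a i‖ = s) ∨ ‖x‖ = ρ) :
    S k (a 0) x - (∑ i, q * C k (a i) x + q0 * C k 0 x) ≤ -(k ^ 2 / 4) := by
  have b : 0 ≤ q ∧ 0 ≤ q0 := by unfold q q0 s ρ; norm_num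
  have h0 := Sle (a 0) x
  rw [← Finset.mul_sum]
  rcases h with h | ⟨i, h⟩ | h
  · have := pi_gt_three
    have := pi_lt_d2
    have l : 3 < k * L ∧ k * L ≤ 4 ∧ k * L - π = k * (6 * q + q0 + 3 * k) := by
      unfold L q q0 s ρ k; refine ⟨?_, ?_, ?_⟩ <;> linarith
    have l0 : 3 < L := by unfold k at l; linarith
    have c : ∀ p, ‖p‖ ≤ 1 → -((1 + k) * L⁻¹) ≤ C k p x := fun p hp => by
      have : L - 2 ≤ ‖x - p‖ := by linarith [norm_sub_norm_le x p, norm_sub_le x (a 0), na 0]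
      have h1 := mul_le_mul_of_nonneg_right (neg_one_le_cos (k * ‖x - p‖)) (inv_nonneg.2 (norm_nonneg (x - p)))
      have h2 : (L - 2)⁻¹ ≤ (1 + k) * L⁻¹ := by
        rw [← div_eq_mul_inv, ← one_div, div_le_div_iff₀ (by linarith) (by linarith)]
        unfold k at *
        linarith
      unfold C
      linarith [inv_anti₀ (by linarith) this]
    have c1 := Finset.card_nsmul_le_sum Finset.univ _ _ fun i _ => c _ (na i).le
    have c2 := c 0 (by simp)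
    have c3 := sin_ge_sub_cube (x := k * L - π) (by rw [l.2.2]; have := k0; have := b.1; have := b.2; positivity)
    rw [sin_sub_pi, l.2.2] at c3
    have c4 := mul_le_mul_of_nonneg_right c3 (inv_pos.2 (by linarith : 0 < L)).le
    have c5 : k / 4 ≤ L⁻¹ := by rw [← one_div, le_div_iff₀ (by linarith)]; linarith
    rw [S, h]
    generalize sin (k * L) = σ, L⁻¹ = l at *
    unfold q q0 at *
    unfold s ρ k at *
    norm_num at *
    linarith
  · have c1 := Finset.single_le_sum (fun j _ => negC k0 (a j) x) (Finset.mem_univ i)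
    have c2 := Cge (x := x) (p := a i) (by rw [h]; unfold s; norm_num)
    have n : ‖x‖ ≤ 1 + s := by linarith [norm_le_norm_add_norm_sub' x (a i), na i]
    have c3 := Cge (x := x) (p := 0) (by unfold s at n; rw [sub_zero]; linarith)
    have c4 := inv_anti₀ (by
      unfold s at h; linarith [norm_sub_norm_le (a i) x, norm_sub_rev x (a i), na i]) n
    rw [Finset.sum_add_distrib] at c1
    rw [h] at c2
    unfold q q0 at *
    unfold s ρ k at *
    norm_num at *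
    linarith
  · have c1 := Finset.sum_le_sum fun i (_ : i ∈ Finset.univ) => Cge (x := x) (p := a i) (by
      unfold ρ at h; linarith [norm_sub_le x (a i), na i])
    have c2 := Cge (x := x) (p := 0) (by unfold ρ at h; rw [sub_zero]; linarith)
    have c3 := (sumu (x := x) (by unfold ρ at *; linarith)).1
    rw [Finset.sum_sub_distrib] at c1
    rw [sub_zero, h] at c2
    unfold q q0 u at *
    unfold s ρ k at *
    norm_num at *
    linarith

lemma posx (h : ‖x‖ = 2 * ρ) : 0 < S k (a 0) x - (∑ i, q * C k (a i) x + q0 * C k 0 x) := by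
  have c1 := Finset.sum_le_sum fun i (_ : i ∈ Finset.univ) => Cle (a i) x
  have c2 := Cle 0 x
  have c3 := (sumu (x := x) (by unfold ρ at *; linarith)).2
  have c4 := Sge (x := x) (p := a 0) (by
    unfold ρ at h; linarith [norm_sub_norm_le (a 0) x, norm_sub_rev x (a 0), na 0])
  have c5 := pow_le_pow_left₀ (norm_nonneg _) (show ‖x - a 0‖ ≤ 2 by
    unfold ρ at h; linarith [norm_sub_le x (a 0), na 0]) 2
  rw [sub_zero, h] at c2
  rw [← Finset.mul_sum, mul_pow] at *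
  unfold q q0 u at *
  unfold s ρ k at *
  norm_num at *
  linarith

end Pool.Agent.H.MP_541d1f_an
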